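import Pool.Agent.MP_93f72d_an.Mg.Main

namespace Pool.Agent.Results.MP_93f72d_an.SeparatedBump

open MeasureTheory Pool.Agent.MP_93f72d_an
open scoped ENNReal

/-- The separated bump conjecture at `p = 2`. -/
theorem result (d : ℕ) (hd : 0 < d) (𝕜 : Type) [RCLike 𝕜] (Φ₁ Φ₂ : ℝ → ℝ)
    (y₁ : IsYoung Φ₁) (y₂ : IsYoung Φ₂)
    (hc : ∃ c : ℝ, 0 < c ∧ ∫⁻ x in Set.Ioi c, (ENNReal.ofReal (Φ₁ x))⁻¹ < ∞ ∧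
      ∫⁻ x in Set.Ioi c, (ENNReal.ofReal (Φ₂ x))⁻¹ < ∞)
    (w σ : EuclideanSpace ℝ (Fin d) → ℝ) (hw : IsWeight w) (hσ : IsWeight σ)
    (b₁ : Bump Φ₁ w σ) (b₂ : Bump Φ₂ σ w)
    (T : L2Op (EuclideanSpace ℝ (Fin d)) 𝕜) (hT : IsCZO T d) :
    TwoWeightBounded T w σ := by
  obtain ⟨c, -, i₁, i₂⟩ := hc
  exact main hd y₁ y₂ i₁ i₂ hw hσ b₁ b₂ hT

end Pool.Agent.Results.MP_93f72d_an.SeparatedBump
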